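import Pool.Agent.Helper23.EC.DGoalsA

/-!
# MP_ecc237_nt, Part D, packet B3: the bound for the coefficient of `x²` of `Q_s`
-/

set_option autoImplicit false

open MeasureTheory Filter Topology Set EC237

namespace Pool.Agent.Helper28.EC.D_B3

theorem coeff_mul0 (F G : PowerSeries ℂ) : PowerSeries.coeff 0 (F * G) =
    PowerSeries.coeff 0 F * PowerSeries.coeff 0 G := by
  rw [PowerSeries.coeff_mul]
  simp

theorem coeff_mul1 (F G : PowerSeries ℂ) : PowerSeries.coeff 1 (F * G) =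
    PowerSeries.coeff 0 F * PowerSeries.coeff 1 G +
    PowerSeries.coeff 1 F * PowerSeries.coeff 0 G := by
  rw [PowerSeries.coeff_mul, Finset.Nat.antidiagonal_succ]
  simp

theorem coeff_mul2 (F G : PowerSeries ℂ) : PowerSeries.coeff 2 (F * G) =
    PowerSeries.coeff 0 F * PowerSeries.coeff 2 G +
    PowerSeries.coeff 1 F * PowerSeries.coeff 1 G +
    PowerSeries.coeff 2 F * PowerSeries.coeff 0 G := by
  rw [PowerSeries.coeff_mul]
  have : (Finset.HasAntidiagonal.antidiagonal 2 : Finset (ℕ × ℕ)) = {(0, 2), (1, 1), (2, 0)} := by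
    decide
  rw [this]
  rw [Finset.sum_insert (by decide), Finset.sum_insert (by decide), Finset.sum_singleton]
  simp only
  ring

theorem rk_ge {k : ℤ × ℤ} (hk : k ≠ 0) : 1 ≤ rk k := by
  unfold rk
  rw [Real.one_le_sqrt]
  have : k.1 ≠ 0 ∨ k.2 ≠ 0 := by
    by_contra h
    push Not at h
    exact hk (Prod.ext h.1 h.2)
  have h2 : 1 ≤ k.1 ^ 2 + k.2 ^ 2 := by
    rcases this with h | h
    · have := sq_nonneg k.2
      have h3 : 0 < k.1 ^ 2 := by positivity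
      linarith
    · have := sq_nonneg k.1
      have h3 : 0 < k.2 ^ 2 := by positivity
      linarith
  exact_mod_cast h2

theorem rk_neg (k : ℤ × ℤ) : rk (-k) = rk k := by
  unfold rk
  simp

theorem rk_zero : rk 0 = 0 := by simp [rk]

theorem pw_zero : pw 0 = 0 := by
  unfold pw
  rw [rk_zero, Real.zero_rpow (by norm_num)]

theorem pw_nonneg (k : ℤ × ℤ) : 0 ≤ pw k := Real.rpow_nonneg (Real.sqrt_nonneg _) _

theorem tri {x y z : ℂ} {C P P' s a b c : ℝ} (hC : 0 ≤ C) (hP : 0 ≤ P) (hP' : 0 ≤ P') (hs : 1 ≤ s)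
    (hx : ‖x‖ ≤ C * s ^ a * P) (hy : ‖y‖ ≤ C * s ^ b * P') (hz : ‖z‖ ≤ C * s ^ c)
    (h : a + b + c ≤ -(5 / 2)) : ‖x * y * z‖ ≤ C ^ 3 * (s ^ (-(5 / 2) : ℝ) * P * P') := by
  have hs0 : 0 < s := by linarith
  rw [norm_mul, norm_mul]
  calc ‖x‖ * ‖y‖ * ‖z‖ ≤ (C * s ^ a * P) * (C * s ^ b * P') * (C * s ^ c) := by
        gcongr
    _ = C ^ 3 * (s ^ (a + b + c) * P * P') := by
        rw [Real.rpow_add hs0, Real.rpow_add hs0]
        ring
    _ ≤ _ := by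
        gcongr

theorem gser_zero (α : ℂ) : gser 0 α = 0 := by
  ext n
  simp [gser]

theorem thm (hB1 : EC237.B1) (hB2 : EC237.B2) : EC237.B3 := by
  intro y0 hy0
  obtain ⟨c, C1, -, hC1, h1⟩ := hB1 y0 hy0
  obtain ⟨C, hC, h2⟩ := hB2 y0 hy0
  refine ⟨2 / 3 * C1 ^ 3 * (6 * C ^ 3), by positivity, ?_⟩
  intro w hw v1 v2 v3 v4 ha1 ha2 ha3 ha4 hsum hk1 hk2 hk3 hk4
  by_cases hs : v1.1 + v2.1 = 0
  · have e : Qs w v1 v2 v3 v4 = 0 := by
      have hA : As w (v1 + v2) = 0 := by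
        unfold As
        rw [Prod.fst_add, hs]
        have : KA w 0 = 0 := by simp [KA]
        rw [this, inv_zero, gser_zero]
      unfold Qs
      rw [hA]
      simp
    rw [e, hs, pw_zero]
    simp
  · obtain ⟨hb1, hb2⟩ := h2 w hw
    have hk34 : v3.1 + v4.1 = -(v1.1 + v2.1) := by
      have := congrArg Prod.fst hsum
      simp only [Prod.fst_add, Prod.fst_zero] at this
      have h5 : v1.1 + v2.1 + (v3.1 + v4.1) = 0 := by rw [← this]; abel
      exact (neg_eq_of_add_eq_zero_right h5).symm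
    have hs34 : v3.1 + v4.1 ≠ 0 := by
      rw [hk34]
      exact neg_ne_zero.mpr hs
    obtain ⟨x0, x1, x2⟩ := hb1 v1 v2 ha1 ha2 hk1 hk2 hs
    obtain ⟨y0', y1, y2⟩ := hb1 v3 v4 ha3 ha4 hk3 hk4 hs34
    rw [hk34, rk_neg] at y0' y1 y2
    have hal : |(v1 + v2).2| ≤ 2 := by
      rw [Prod.snd_add]
      exact (abs_add_le _ _).trans (by linarith)
    have hz := hb2 (v1 + v2) hal hs
    have z0 := hz 0 (by norm_num)
    have z1 := hz 1 (by norm_num)
    have z2 := hz 2 le_rfl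
    rw [Prod.fst_add] at z0 z1 z2
    have hs1 := rk_ge hs
    have hP := add_nonneg (pw_nonneg v1.1) (pw_nonneg v2.1)
    have hP' := add_nonneg (pw_nonneg v3.1) (pw_nonneg v4.1)
    have t1 := tri hC.le hP hP' hs1 x0 y0' z2 (by norm_num)
    have t2 := tri hC.le hP hP' hs1 x0 y1 z1 (by norm_num)
    have t3 := tri hC.le hP hP' hs1 x1 y0' z1 (by norm_num)
    have t4 := tri hC.le hP hP' hs1 x0 y2 z0 (by norm_num)
    have t5 := tri hC.le hP hP' hs1 x1 y1 z0 (by norm_num)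
    have t6 := tri hC.le hP hP' hs1 x2 y0' z0 (by norm_num)
    have hw' := (h1 w hw).2.1
    have hcw : ‖(-(2 / 3 * w ^ 3) : ℂ)‖ ≤ 2 / 3 * C1 ^ 3 := by
      rw [norm_neg, norm_mul, norm_pow]
      have : ‖(2 / 3 : ℂ)‖ = 2 / 3 := by
        rw [norm_div]
        norm_num
      rw [this]
      gcongr
    unfold Qs
    rw [PowerSeries.coeff_smul, smul_eq_mul,
      coeff_mul2 (XX w v1 v2 * XX w v3 v4) (As w (v1 + v2) * Bs w (v1 + v2)),
      coeff_mul0 (XX w v1 v2) (XX w v3 v4), coeff_mul1 (XX w v1 v2) (XX w v3 v4),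
      coeff_mul2 (XX w v1 v2) (XX w v3 v4), norm_mul]
    set X0 := PowerSeries.coeff 0 (XX w v1 v2)
    set X1 := PowerSeries.coeff 1 (XX w v1 v2)
    set X2 := PowerSeries.coeff 2 (XX w v1 v2)
    set Y0 := PowerSeries.coeff 0 (XX w v3 v4)
    set Y1 := PowerSeries.coeff 1 (XX w v3 v4)
    set Y2 := PowerSeries.coeff 2 (XX w v3 v4)
    set Z0 := PowerSeries.coeff 0 (As w (v1 + v2) * Bs w (v1 + v2))
    set Z1 := PowerSeries.coeff 1 (As w (v1 + v2) * Bs w (v1 + v2))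
    set Z2 := PowerSeries.coeff 2 (As w (v1 + v2) * Bs w (v1 + v2))
    have e : X0 * Y0 * Z2 + (X0 * Y1 + X1 * Y0) * Z1 + (X0 * Y2 + X1 * Y1 + X2 * Y0) * Z0 =
        X0 * Y0 * Z2 + X0 * Y1 * Z1 + X1 * Y0 * Z1 + X0 * Y2 * Z0 + X1 * Y1 * Z0 +
          X2 * Y0 * Z0 := by ring
    rw [e]
    have hpw : pw (v1.1 + v2.1) = rk (v1.1 + v2.1) ^ (-(5 / 2) : ℝ) := rfl
    rw [hpw]
    set M := rk (v1.1 + v2.1) ^ (-(5 / 2) : ℝ) * (pw v1.1 + pw v2.1) * (pw v3.1 + pw v4.1)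
    have hbig : ‖X0 * Y0 * Z2 + X0 * Y1 * Z1 + X1 * Y0 * Z1 + X0 * Y2 * Z0 + X1 * Y1 * Z0 +
          X2 * Y0 * Z0‖ ≤ 6 * C ^ 3 * M := by
      refine (norm_add_le _ _).trans ?_
      have n1 := norm_add_le (X0 * Y0 * Z2 + X0 * Y1 * Z1 + X1 * Y0 * Z1 + X0 * Y2 * Z0)
        (X1 * Y1 * Z0)
      have n2 := norm_add_le (X0 * Y0 * Z2 + X0 * Y1 * Z1 + X1 * Y0 * Z1) (X0 * Y2 * Z0)
      have n3 := norm_add_le (X0 * Y0 * Z2 + X0 * Y1 * Z1) (X1 * Y0 * Z1)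
      have n4 := norm_add_le (X0 * Y0 * Z2) (X0 * Y1 * Z1)
      linarith
    calc _ ≤ 2 / 3 * C1 ^ 3 * (6 * C ^ 3 * M) :=
          mul_le_mul hcw hbig (norm_nonneg _) (by positivity)
      _ = _ := by ring

end Pool.Agent.Helper28.EC.D_B3
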