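import Pool.Agent.Helper23.EC.DGoalsA

/-!
# MP_ecc237_nt, Part D, packet A2: the derivative of `Q_s`
-/

set_option autoImplicit false

open MeasureTheory Filter Topology Set EC237

namespace Pool.Agent.Helper28.EC.D_A2

theorem hd_smul {c : ℂ → ℂ} {c' : ℂ} {F : ℂ → PowerSeries ℂ} {F' : PowerSeries ℂ} {w : ℂ}
    (hc : HasDerivAt c c' w) (hF : HD F F' w) :
    HD (fun u => c u • F u) (c' • F w + c w • F') w := by
  intro n
  have h := hc.mul (hF n)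
  have e : (fun u => PowerSeries.coeff n (c u • F u)) =
      c * fun u => PowerSeries.coeff n (F u) := by
    funext u
    simp
  rw [e]
  refine h.congr_deriv ?_
  simp

theorem hd_sub {F G : ℂ → PowerSeries ℂ} {F' G' : PowerSeries ℂ} {w : ℂ}
    (hF : HD F F' w) (hG : HD G G' w) : HD (fun u => F u - G u) (F' - G') w := by
  intro n
  have h := (hF n).sub (hG n)
  have e : (fun u => PowerSeries.coeff n (F u - G u)) =
      (fun u => PowerSeries.coeff n (F u)) - fun u => PowerSeries.coeff n (G u) := by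
    funext u
    simp
  rw [e]
  refine h.congr_deriv ?_
  simp

theorem c2 : PowerSeries.C (2 : ℂ) = 2 := map_ofNat _ 2

theorem c4 : PowerSeries.C (4 : ℂ) = 4 := map_ofNat _ 4

theorem c6 : PowerSeries.C (6 : ℂ) = 6 := map_ofNat _ 6

theorem half_mul : (2 : PowerSeries ℂ) * PowerSeries.C (1 / 2 : ℂ) = 1 := by
  rw [← c2, ← map_mul]
  norm_num

/-- `δX12`. -/
theorem hd_XX (hA1 : A1) {w : ℂ} (hw : 0 < w.re) {v1 v2 : SV} (h1 : v1.1 ≠ 0) (h2 : v2.1 ≠ 0) :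
    HD (fun u => XX u v1 v2)
      (w⁻¹ • (XX w v1 v2 * ((1 / 2 : ℂ) • (om w v1 + om w v2) - 1))) w := by
  obtain ⟨-, hK, -, hD, hM⟩ := hA1 w hw
  obtain ⟨e1, f1⟩ := hK v1 h1
  obtain ⟨e2, f2⟩ := hK v2 h2
  have h := hd_sub (hM _ _ _ _ (hD v1 h1).1 (hD v2 h2).2) (hM _ _ _ _ (hD v1 h1).2 (hD v2 h2).1)
  have key : (w⁻¹ • ((1 / 2 : ℂ) • (As w v1 ^ 2 * KBs w v1 - As w v1))) * Bs w v2 +
      As w v1 * (w⁻¹ • ((1 / 2 : ℂ) • (Bs w v2 ^ 2 * KAs w v2 - Bs w v2))) -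
      ((w⁻¹ • ((1 / 2 : ℂ) • (Bs w v1 ^ 2 * KAs w v1 - Bs w v1))) * As w v2 +
      Bs w v1 * (w⁻¹ • ((1 / 2 : ℂ) • (As w v2 ^ 2 * KBs w v2 - As w v2)))) =
      w⁻¹ • (XX w v1 v2 * ((1 / 2 : ℂ) • (om w v1 + om w v2) - 1)) := by
    simp only [PowerSeries.smul_eq_C_mul, XX, om]
    have hh := half_mul
    generalize PowerSeries.C (w⁻¹) = p
    generalize PowerSeries.C (1 / 2 : ℂ) = h at hh ⊢
    linear_combination (-(p * (As w v1 * Bs w v2 - Bs w v1 * As w v2))) * hh -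
      p * h * Bs w v1 * Bs w v2 * e1 + p * h * As w v1 * As w v2 * f1 -
      p * h * As w v1 * As w v2 * f2 + p * h * Bs w v1 * Bs w v2 * e2
  rw [← key]
  exact h

/-- `δ(A_s B_s)`. -/
theorem hd_AB (hA1 : A1) {w : ℂ} (hw : 0 < w.re) {v : SV} (hv : v.1 ≠ 0) :
    HD (fun u => As u v * Bs u v)
      (w⁻¹ • ((As w v * Bs w v) * ((1 / 2 : ℂ) • om w v - 1))) w := by
  obtain ⟨-, hK, -, hD, hM⟩ := hA1 w hw
  have h := hM _ _ _ _ (hD v hv).1 (hD v hv).2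
  have key : (w⁻¹ • ((1 / 2 : ℂ) • (As w v ^ 2 * KBs w v - As w v))) * Bs w v +
      As w v * (w⁻¹ • ((1 / 2 : ℂ) • (Bs w v ^ 2 * KAs w v - Bs w v))) =
      w⁻¹ • ((As w v * Bs w v) * ((1 / 2 : ℂ) • om w v - 1)) := by
    simp only [PowerSeries.smul_eq_C_mul, om]
    have hh := half_mul
    generalize PowerSeries.C (w⁻¹) = p
    generalize PowerSeries.C (1 / 2 : ℂ) = h at hh ⊢
    linear_combination (-(p * (As w v * Bs w v))) * hh
  rw [← key]
  exact h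

theorem thm (hA1 : EC237.A1) : EC237.A2 := by
  intro w hw v1 v2 v3 v4 h1 h2 h3 h4 hs
  have hw0 : w ≠ 0 := by
    rintro rfl
    simp at hw
  obtain ⟨-, -, -, -, hM⟩ := hA1 w hw
  have hX12 := hd_XX hA1 hw h1 h2
  have hX34 := hd_XX hA1 hw h3 h4
  have hAB := hd_AB hA1 hw (v := v1 + v2) hs
  have hc : HasDerivAt (fun u : ℂ => -(2 / 3 * u ^ 3)) (-(2 / 3 * (3 * w ^ 2))) w := by
    have := ((hasDerivAt_pow 3 w).const_mul (2 / 3 : ℂ)).fun_neg
    simpa using this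
  have h := hd_smul hc (hM _ _ _ _ (hM _ _ _ _ hX12 hX34) hAB)
  have key : (-(2 / 3 * (3 * w ^ 2))) • (XX w v1 v2 * XX w v3 v4 *
      (As w (v1 + v2) * Bs w (v1 + v2))) +
      (-(2 / 3 * w ^ 3)) • (((w⁻¹ • (XX w v1 v2 * ((1 / 2 : ℂ) • (om w v1 + om w v2) - 1))) *
        XX w v3 v4 + XX w v1 v2 *
        (w⁻¹ • (XX w v3 v4 * ((1 / 2 : ℂ) • (om w v3 + om w v4) - 1)))) *
        (As w (v1 + v2) * Bs w (v1 + v2)) + XX w v1 v2 * XX w v3 v4 *
        (w⁻¹ • ((As w (v1 + v2) * Bs w (v1 + v2)) * ((1 / 2 : ℂ) • om w (v1 + v2) - 1)))) =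
      w⁻¹ • dQs w v1 v2 v3 v4 := by
    simp only [PowerSeries.smul_eq_C_mul, dQs]
    have hh := half_mul
    have hA : PowerSeries.C (-(2 / 3 * (3 * w ^ 2)) : ℂ) =
        -2 * (PowerSeries.C w) ^ 2 := by
      rw [show (-(2 / 3 * (3 * w ^ 2)) : ℂ) = -2 * w ^ 2 by ring]
      simp only [map_mul, map_neg, map_pow, c2]
    have hB : PowerSeries.C (-(2 / 3 * w ^ 3) : ℂ) =
        -4 * PowerSeries.C (1 / 6 : ℂ) * (PowerSeries.C w) ^ 3 := by
      rw [show (-(2 / 3 * w ^ 3) : ℂ) = -4 * (1 / 6) * w ^ 3 by ring]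
      simp only [map_mul, map_neg, map_pow, c4]
    have hC : PowerSeries.C (-(1 / 3 * w ^ 3) : ℂ) =
        -2 * PowerSeries.C (1 / 6 : ℂ) * (PowerSeries.C w) ^ 3 := by
      rw [show (-(1 / 3 * w ^ 3) : ℂ) = -2 * (1 / 6) * w ^ 3 by ring]
      simp only [map_mul, map_neg, map_pow, c2]
    have hp : PowerSeries.C w * PowerSeries.C (w⁻¹) = 1 := by
      rw [← map_mul, mul_inv_cancel₀ hw0, map_one]
    have hk : (6 : PowerSeries ℂ) * PowerSeries.C (1 / 6 : ℂ) = 1 := by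
      rw [← c6, ← map_mul]
      norm_num
    rw [hA, hB, hC]
    generalize PowerSeries.C (w⁻¹) = p at hp ⊢
    generalize PowerSeries.C w = W at hp ⊢
    generalize PowerSeries.C (1 / 2 : ℂ) = h at hh ⊢
    generalize PowerSeries.C (1 / 6 : ℂ) = k at hk ⊢
    generalize XX w v1 v2 = X
    generalize XX w v3 v4 = Y
    generalize As w (v1 + v2) * Bs w (v1 + v2) = Z
    generalize om w v1 = o1
    generalize om w v2 = o2
    generalize om w v3 = o3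
    generalize om w v4 = o4
    generalize om w (v1 + v2) = o5
    linear_combination (-2 * k * W ^ 3 * p * X * Y * Z * (o1 + o2 + o3 + o4 + o5)) * hh +
      (2 * W ^ 3 * p * X * Y * Z) * hk + (2 * W ^ 2 * X * Y * Z) * hp
  rw [← key]
  exact h

end Pool.Agent.Helper28.EC.D_A2
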