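import Pool.Agent.Helper38.EC.Goals

/-!
# MP_ecc237_nt, packet ASY: asymptotics of `H_p` at infinity
-/

set_option autoImplicit false

open MeasureTheory Filter Topology Set Complex EC237 EC237.PI

namespace Pool.Agent.Helper28.EC.I_ASY

/-! ### The Cauchy density -/

theorem cauchy_integrable {a : ℝ} (ha : 0 < a) :
    IntegrableOn (fun η : ℝ => (a ^ 2 + η ^ 2)⁻¹) (Ioi 0) := by
  have h1 : IntegrableOn (fun η : ℝ => (1 + (a⁻¹ * η) ^ 2)⁻¹) (Ioi 0) := by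
    have := (integrableOn_Ioi_comp_mul_left_iff (fun x : ℝ => (1 + x ^ 2)⁻¹) 0
      (inv_pos.mpr ha)).mpr (integrable_inv_one_add_sq.integrableOn)
    exact this
  have h2 : (fun η : ℝ => (a ^ 2 + η ^ 2)⁻¹) =
      fun η : ℝ => (a ^ 2)⁻¹ * (1 + (a⁻¹ * η) ^ 2)⁻¹ := by
    funext η
    rw [← mul_inv]
    congr 1
    field_simp
  rw [h2]
  exact h1.const_mul _

theorem cauchy_integral {a : ℝ} (ha : 0 < a) :
    ∫ η in Ioi (0:ℝ), (a ^ 2 + η ^ 2)⁻¹ = Real.pi / 2 / a := by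
  have h2 : (fun η : ℝ => (a ^ 2 + η ^ 2)⁻¹) =
      fun η : ℝ => (a ^ 2)⁻¹ * (1 + (a⁻¹ * η) ^ 2)⁻¹ := by
    funext η
    rw [← mul_inv]
    congr 1
    field_simp
  rw [h2, integral_const_mul, integral_comp_mul_left_Ioi (fun x : ℝ => (1 + x ^ 2)⁻¹) 0
    (inv_pos.mpr ha), mul_zero, integral_Ioi_inv_one_add_sq]
  simp only [Real.arctan_zero, sub_zero, smul_eq_mul, inv_inv]
  field_simp

/-! ### The segment `t - iη` -/

theorem norm_sq_le {t : ℂ} (ht : t ∈ Qd) {η : ℝ} (hη : 0 ≤ η) :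
    ‖t‖ ^ 2 + η ^ 2 ≤ ‖t - I * η‖ ^ 2 := by
  obtain ⟨h1, h2, -⟩ := ht
  rw [Complex.sq_norm, Complex.sq_norm, normSq_apply, normSq_apply]
  simp only [sub_re, sub_im, mul_re, mul_im, I_re, I_im, ofReal_re, ofReal_im, zero_mul, one_mul,
    mul_zero, sub_zero, zero_add, sub_self]
  nlinarith [mul_nonneg hη (neg_nonneg.mpr h2)]

theorem norm_le {t : ℂ} (ht : t ∈ Qd) {η : ℝ} (hη : 0 ≤ η) : ‖t‖ ≤ ‖t - I * η‖ := by
  have h := norm_sq_le ht hη
  have h1 := norm_nonneg t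
  have h2 := norm_nonneg (t - I * η)
  nlinarith [sq_nonneg η]

theorem norm_pos_Qd {t : ℂ} (ht : t ∈ Qd) : 0 < ‖t‖ := norm_pos_iff.mpr ht.2.2

theorem u_ne {t : ℂ} (ht : t ∈ Qd) {η : ℝ} (hη : 0 ≤ η) : t - I * η ≠ 0 :=
  norm_pos_iff.mp ((norm_pos_Qd ht).trans_le (norm_le ht hη))

theorem u_slit {t : ℂ} (ht : t ∈ Qd) {η : ℝ} (hη : 0 ≤ η) : t - I * η ∈ slitPlane := by
  rw [mem_slitPlane_iff]
  by_cases h : (t - I * η).im = 0
  · left
    have hne := u_ne ht hη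
    have hre : (t - I * η).re = t.re := by simp
    have h0 : 0 ≤ (t - I * η).re := by rw [hre]; exact ht.1
    rcases h0.lt_or_eq with h3 | h3
    · exact h3
    · exact absurd (Complex.ext h3.symm h) hne
  · exact Or.inr h

theorem inv_sq_le {t : ℂ} (ht : t ∈ Qd) {η : ℝ} (hη : 0 ≤ η) :
    ‖(t - I * η)⁻¹‖ ^ 2 ≤ (‖t‖ ^ 2 + η ^ 2)⁻¹ := by
  rw [norm_inv, inv_pow]
  have h0 : 0 < ‖t‖ ^ 2 + η ^ 2 := by
    have := norm_pos_Qd ht
    positivity
  exact inv_anti₀ h0 (norm_sq_le ht hη)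

theorem inv_le {t : ℂ} (ht : t ∈ Qd) {η : ℝ} (hη : 0 ≤ η) :
    ‖(t - I * η)⁻¹‖ ≤ ‖t‖⁻¹ := by
  rw [norm_inv]
  exact inv_anti₀ (norm_pos_Qd ht) (norm_le ht hη)

theorem hasDeriv_u (t : ℂ) (η : ℝ) : HasDerivAt (fun η : ℝ => t - I * (η : ℂ)) (-I) η := by
  have h := ((hasDerivAt_id η).ofReal_comp.const_mul I).const_sub t
  simpa using h

/-! ### The trigonometric primitive -/

/-- `sin^6 = 5/16 + Q'`. -/
noncomputable def Q (η : ℝ) : ℝ :=
  -(15 / 64) * Real.sin (2 * η) + 3 / 64 * Real.sin (4 * η) - 1 / 192 * Real.sin (6 * η)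

theorem abs_Q (η : ℝ) : |Q η| ≤ 1 := by
  unfold Q
  have h1 := abs_le.mp (Real.abs_sin_le_one (2 * η))
  have h2 := abs_le.mp (Real.abs_sin_le_one (4 * η))
  have h3 := abs_le.mp (Real.abs_sin_le_one (6 * η))
  rw [abs_le]
  constructor <;> linarith [h1.1, h1.2, h2.1, h2.2, h3.1, h3.2]

theorem Q_zero : Q 0 = 0 := by simp [Q]

theorem hasDeriv_Q (η : ℝ) : HasDerivAt Q (Real.sin η ^ 6 - 5 / 16) η := by
  have h2 : HasDerivAt (fun x : ℝ => Real.sin (2 * x)) (Real.cos (2 * η) * 2) η := by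
    have := ((hasDerivAt_id η).const_mul (2:ℝ)).sin
    simpa using this
  have h4 : HasDerivAt (fun x : ℝ => Real.sin (4 * x)) (Real.cos (4 * η) * 4) η := by
    have := ((hasDerivAt_id η).const_mul (4:ℝ)).sin
    simpa using this
  have h6 : HasDerivAt (fun x : ℝ => Real.sin (6 * x)) (Real.cos (6 * η) * 6) η := by
    have := ((hasDerivAt_id η).const_mul (6:ℝ)).sin
    simpa using this
  have h := ((h2.const_mul (-(15 / 64) : ℝ)).add (h4.const_mul (3 / 64 : ℝ))).sub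
    (h6.const_mul (1 / 192 : ℝ))
  refine h.congr_deriv ?_
  have e2 : Real.cos (2 * η) = 1 - 2 * Real.sin η ^ 2 := by
    rw [Real.cos_two_mul, Real.cos_sq']; ring
  have e4 : Real.cos (4 * η) = 2 * Real.cos (2 * η) ^ 2 - 1 := by
    rw [show 4 * η = 2 * (2 * η) by ring, Real.cos_two_mul]
  have e6 : Real.cos (6 * η) = 4 * Real.cos (2 * η) ^ 3 - 3 * Real.cos (2 * η) := by
    rw [show 6 * η = 3 * (2 * η) by ring, Real.cos_three_mul]
  rw [e6, e4, e2]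
  ring

theorem continuous_Q : Continuous Q := by
  unfold Q
  fun_prop

/-! ### Main estimates -/

/-- The error term of VOL. -/
noncomputable def er (t : ℂ) (η : ℝ) : ℂ :=
  t ^ 3 * (t - I * η) ^ 3 * BB t (t - I * η) ^ 6 + ((Real.sin η ^ 6 : ℝ) : ℂ)

theorem B6_eq {t : ℂ} (ht : t ∈ Qd) {η : ℝ} (hη : 0 ≤ η) :
    BB t (t - I * η) ^ 6 = t⁻¹ ^ 3 * (t - I * η)⁻¹ ^ 3 * (-((Real.sin η ^ 6 : ℝ) : ℂ) + er t η) := by
  have h1 := ht.2.2
  have h2 := u_ne ht hη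
  unfold er
  rw [show (-((Real.sin η ^ 6 : ℝ) : ℂ) + (t ^ 3 * (t - I * η) ^ 3 * BB t (t - I * η) ^ 6 +
    ((Real.sin η ^ 6 : ℝ) : ℂ))) = t ^ 3 * (t - I * η) ^ 3 * BB t (t - I * η) ^ 6 by ring,
    inv_pow, inv_pow]
  field_simp

theorem contOn_BB (hWR : G_WR) (hS : G_SERA) {t : ℂ} (ht : t ∈ Qd) :
    ContinuousOn (fun η : ℝ => BB t (t - I * η)) (Ioi 0) := by
  have hu : ContinuousOn (fun η : ℝ => t - I * (η : ℂ)) (Ioi 0) :=
    fun η _ => (hasDeriv_u t η).continuousAt.continuousWithinAt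
  have hK : ContinuousOn (fun η : ℝ => Kc (t - I * η)) (Ioi 0) := by
    intro η hη
    have h1 : ContinuousAt Kc (t - I * η) :=
      (hWR.1 _ (u_slit ht (le_of_lt hη))).1.continuousAt
    exact (ContinuousAt.comp (f := fun η : ℝ => t - I * (η : ℂ)) h1
      (hasDeriv_u t η).continuousAt).continuousWithinAt
  have hI : ContinuousOn (fun η : ℝ => Ic (t - I * η)) (Ioi 0) :=
    hS.1.continuous.comp_continuousOn hu
  unfold BB
  exact (continuousOn_const.mul hK).sub (continuousOn_const.mul hI)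

theorem thm (hVOL : G_VOL) (hWR : G_WR) (hS : G_SERA) : EC237.PI.G_ASY := by
  obtain ⟨C, hC⟩ := hVOL
  have hCpos : 0 ≤ C := by
    have h := hC 1 ⟨by simp, by simp, one_ne_zero⟩ (by simp) 0 le_rfl
    have h0 := (norm_nonneg _).trans h
    simpa using h0
  refine ⟨(1 + C) * Real.pi, ?_⟩
  intro t ht ht1
  have htn := norm_pos_Qd ht
  have hne : t ≠ 0 := ht.2.2
  have hpi := Real.pi_pos
  have her : ∀ η : ℝ, 0 ≤ η → ‖er t η‖ ≤ C / ‖t‖ := fun η hη => hC t ht ht1 η hη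
  have hIg := cauchy_integrable htn
  have hInt := cauchy_integral htn
  have hsin : ∀ η : ℝ, ‖((Real.sin η ^ 6 : ℝ) : ℂ)‖ ≤ 1 := by
    intro η
    rw [Complex.norm_real, Real.norm_eq_abs, abs_pow]
    exact pow_le_one₀ (abs_nonneg _) (Real.abs_sin_le_one η)
  have hBcont := contOn_BB hWR hS ht
  have hucont : Continuous (fun η : ℝ => t - I * (η : ℂ)) := by fun_prop
  have hinvcont : ContinuousOn (fun η : ℝ => (t - I * (η : ℂ))⁻¹) (Ioi 0) :=
    hucont.continuousOn.inv₀ (fun η hη => u_ne ht (le_of_lt hη))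
  have hercont : ContinuousOn (fun η : ℝ => er t η) (Ioi 0) := by
    unfold er
    refine ((continuousOn_const.mul (hucont.continuousOn.pow 3)).mul (hBcont.pow 6)).add ?_
    exact (Complex.continuous_ofReal.comp (Real.continuous_sin.pow 6)).continuousOn
  constructor
  · -- `p = 1`
    have hmain : ∀ η ∈ Ioi (0:ℝ), BB t (t - I * η) ^ 6 * (t - I * η) ^ (1:ℤ) =
        -(t⁻¹ ^ 3) * (((Real.sin η ^ 6 : ℝ) : ℂ) * (t - I * η)⁻¹ ^ 2) +
          t⁻¹ ^ 3 * ((t - I * η)⁻¹ ^ 2 * er t η) := by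
      intro η hη
      have h2 := u_ne ht (le_of_lt hη)
      rw [B6_eq ht (le_of_lt hη), zpow_one]
      have h3 : (t - I * (η : ℂ))⁻¹ ^ 3 * (t - I * η) = (t - I * η)⁻¹ ^ 2 := by
        rw [pow_succ, mul_assoc, inv_mul_cancel₀ h2, mul_one]
      linear_combination (t⁻¹ ^ 3 * (-((Real.sin η ^ 6 : ℝ) : ℂ) + er t η)) * h3
    have hb2 : ∀ η ∈ Ioi (0:ℝ), ‖(t - I * (η : ℂ))⁻¹ ^ 2‖ ≤ (‖t‖ ^ 2 + η ^ 2)⁻¹ := by
      intro η hη
      rw [norm_pow]
      exact inv_sq_le ht (le_of_lt hη)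
    have hb3 : ∀ η ∈ Ioi (0:ℝ), ‖(t - I * (η : ℂ))⁻¹ ^ 3‖ ≤ ‖t‖⁻¹ * (‖t‖ ^ 2 + η ^ 2)⁻¹ := by
      intro η hη
      rw [norm_pow, pow_succ, mul_comm]
      exact mul_le_mul (inv_le ht (le_of_lt hη)) (inv_sq_le ht (le_of_lt hη)) (by positivity)
        (by positivity)
    have i1 : IntegrableOn (fun η : ℝ => ((Real.sin η ^ 6 : ℝ) : ℂ) * (t - I * (η : ℂ))⁻¹ ^ 2)
        (Ioi 0) := by
      refine Integrable.mono' hIg ?_ ?_
      · refine ContinuousOn.aestronglyMeasurable ?_ measurableSet_Ioi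
        exact (Complex.continuous_ofReal.comp (Real.continuous_sin.pow 6)).continuousOn.mul
          (hinvcont.pow 2)
      · refine (ae_restrict_mem measurableSet_Ioi).mono fun η hη => ?_
        rw [norm_mul]
        calc _ ≤ 1 * (‖t‖ ^ 2 + η ^ 2)⁻¹ :=
              mul_le_mul (hsin η) (hb2 η hη) (norm_nonneg _) zero_le_one
          _ = _ := one_mul _
    have i2 : IntegrableOn (fun η : ℝ => (t - I * (η : ℂ))⁻¹ ^ 2 * er t η) (Ioi 0) := by
      refine Integrable.mono' (hIg.mul_const (C / ‖t‖)) ?_ ?_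
      · exact ContinuousOn.aestronglyMeasurable ((hinvcont.pow 2).mul hercont) measurableSet_Ioi
      · refine (ae_restrict_mem measurableSet_Ioi).mono fun η hη => ?_
        rw [norm_mul]
        exact mul_le_mul (hb2 η hη) (her η (le_of_lt hη)) (norm_nonneg _) (by positivity)
    have i3 : IntegrableOn (fun η : ℝ => (Q η : ℂ) * (t - I * (η : ℂ))⁻¹ ^ 3) (Ioi 0) := by
      refine Integrable.mono' (hIg.const_mul (‖t‖⁻¹)) ?_ ?_
      · refine ContinuousOn.aestronglyMeasurable ?_ measurableSet_Ioi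
        exact (Complex.continuous_ofReal.comp continuous_Q).continuousOn.mul (hinvcont.pow 3)
      · refine (ae_restrict_mem measurableSet_Ioi).mono fun η hη => ?_
        rw [norm_mul, Complex.norm_real, Real.norm_eq_abs]
        calc _ ≤ 1 * (‖t‖⁻¹ * (‖t‖ ^ 2 + η ^ 2)⁻¹) :=
              mul_le_mul (abs_Q η) (hb3 η hη) (norm_nonneg _) zero_le_one
          _ = _ := one_mul _
    -- the main term
    have hval : ∫ η in Ioi (0:ℝ), ((Real.sin η ^ 6 : ℝ) : ℂ) * (t - I * (η : ℂ))⁻¹ ^ 2 =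
        5 / 16 * (I * t⁻¹) - 2 * I * ∫ η in Ioi (0:ℝ), (Q η : ℂ) * (t - I * (η : ℂ))⁻¹ ^ 3 := by
      have hder : ∀ η ∈ Ici (0:ℝ), HasDerivAt
          (fun η : ℝ => -(5 / 16 * I) * (t - I * (η : ℂ))⁻¹ + (Q η : ℂ) * (t - I * (η : ℂ))⁻¹ ^ 2)
          (((Real.sin η ^ 6 : ℝ) : ℂ) * (t - I * (η : ℂ))⁻¹ ^ 2 +
            2 * I * ((Q η : ℂ) * (t - I * (η : ℂ))⁻¹ ^ 3)) η := by
        intro η hη
        have h2 := u_ne ht hη
        have d1 := (hasDeriv_u t η).inv h2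
        have d2 := d1.pow 2
        have d3 := (hasDeriv_Q η).ofReal_comp
        have d4 := (d1.const_mul (-(5 / 16 * I))).add (d3.mul d2)
        refine d4.congr_deriv ?_
        have e : - -I / (t - I * (η : ℂ)) ^ 2 = I * (t - I * (η : ℂ))⁻¹ ^ 2 := by
          rw [neg_neg, div_eq_mul_inv, inv_pow]
        rw [e]
        simp only [Pi.pow_apply, Pi.inv_apply]
        generalize (t - I * (η : ℂ))⁻¹ = W
        push_cast
        linear_combination (-(5 / 16) * W ^ 2) * I_sq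
      have htend : Tendsto (fun η : ℝ => -(5 / 16 * I) * (t - I * (η : ℂ))⁻¹ +
          (Q η : ℂ) * (t - I * (η : ℂ))⁻¹ ^ 2) atTop (𝓝 0) := by
        rw [tendsto_zero_iff_norm_tendsto_zero]
        have hinv : Tendsto (fun η : ℝ => η⁻¹ + η⁻¹ ^ 2) atTop (𝓝 0) := by
          have := tendsto_inv_atTop_zero (𝕜 := ℝ)
          simpa using this.add (this.pow 2)
        refine squeeze_zero' (Eventually.of_forall fun η => norm_nonneg _) ?_ hinv
        filter_upwards [eventually_gt_atTop (0:ℝ)] with η hη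
        have h1 : ‖(t - I * (η : ℂ))⁻¹‖ ≤ η⁻¹ := by
          rw [norm_inv]
          refine inv_anti₀ hη ?_
          have := norm_sq_le ht hη.le
          have h3 := norm_nonneg (t - I * (η : ℂ))
          have h4 := norm_nonneg t
          nlinarith [sq_nonneg ‖t‖]
        refine (norm_add_le _ _).trans (add_le_add ?_ ?_)
        · rw [norm_mul]
          have : ‖-(5 / 16 * I)‖ ≤ 1 := by
            rw [norm_neg, norm_mul, Complex.norm_I]
            norm_num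
          calc _ ≤ 1 * η⁻¹ := mul_le_mul this h1 (norm_nonneg _) zero_le_one
            _ = _ := one_mul _
        · rw [norm_mul, Complex.norm_real, Real.norm_eq_abs, norm_pow]
          calc _ ≤ 1 * η⁻¹ ^ 2 := mul_le_mul (abs_Q η) (pow_le_pow_left₀ (norm_nonneg _) h1 2)
                (by positivity) zero_le_one
            _ = _ := one_mul _
      have h := integral_Ioi_of_hasDerivAt_of_tendsto' hder (i1.add (i3.const_mul (2 * I))) htend
      rw [integral_add i1 (i3.const_mul (2 * I)), integral_const_mul] at h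
      have h0 : (0 : ℂ) - (-(5 / 16 * I) * (t - I * ((0:ℝ) : ℂ))⁻¹ +
          (Q 0 : ℂ) * (t - I * ((0:ℝ) : ℂ))⁻¹ ^ 2) = 5 / 16 * (I * t⁻¹) := by
        rw [Q_zero]
        simp only [ofReal_zero, mul_zero, sub_zero, zero_mul, add_zero]
        ring
      rw [h0] at h
      linear_combination h
    have hH : Hp 1 t - 5 / 16 * (t ^ 4)⁻¹ = I * (2 * I * t⁻¹ ^ 3 *
        (∫ η in Ioi (0:ℝ), (Q η : ℂ) * (t - I * (η : ℂ))⁻¹ ^ 3) +
        t⁻¹ ^ 3 * ∫ η in Ioi (0:ℝ), (t - I * (η : ℂ))⁻¹ ^ 2 * er t η) := by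
      unfold Hp
      rw [setIntegral_congr_fun measurableSet_Ioi hmain,
        integral_add (i1.const_mul _) (i2.const_mul _), integral_const_mul, integral_const_mul,
        hval]
      have h4 : (t ^ 4)⁻¹ = t⁻¹ ^ 3 * t⁻¹ := by
        rw [← pow_succ, inv_pow]
      rw [h4]
      linear_combination (-(5 / 16) * t⁻¹ ^ 3 * t⁻¹) * I_sq
    rw [hH, norm_mul, Complex.norm_I, one_mul]
    have n3 : ‖∫ η in Ioi (0:ℝ), (Q η : ℂ) * (t - I * (η : ℂ))⁻¹ ^ 3‖ ≤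
        ‖t‖⁻¹ * (Real.pi / 2 / ‖t‖) := by
      rw [← hInt, ← integral_const_mul]
      refine norm_integral_le_of_norm_le (hIg.const_mul _) ?_
      refine (ae_restrict_mem measurableSet_Ioi).mono fun η hη => ?_
      rw [norm_mul, Complex.norm_real, Real.norm_eq_abs]
      calc _ ≤ 1 * (‖t‖⁻¹ * (‖t‖ ^ 2 + η ^ 2)⁻¹) :=
            mul_le_mul (abs_Q η) (hb3 η hη) (norm_nonneg _) zero_le_one
        _ = _ := one_mul _
    have n2 : ‖∫ η in Ioi (0:ℝ), (t - I * (η : ℂ))⁻¹ ^ 2 * er t η‖ ≤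
        (Real.pi / 2 / ‖t‖) * (C / ‖t‖) := by
      rw [← hInt, ← integral_mul_const]
      refine norm_integral_le_of_norm_le (hIg.mul_const _) ?_
      refine (ae_restrict_mem measurableSet_Ioi).mono fun η hη => ?_
      rw [norm_mul]
      exact mul_le_mul (hb2 η hη) (her η (le_of_lt hη)) (norm_nonneg _) (by positivity)
    refine (norm_add_le _ _).trans ?_
    rw [norm_mul, norm_mul, norm_mul, norm_mul, norm_pow, norm_inv, Complex.norm_I]
    have h5 : ‖(2:ℂ)‖ = 2 := by norm_num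
    rw [h5]
    calc _ ≤ 2 * 1 * ‖t‖⁻¹ ^ 3 * (‖t‖⁻¹ * (Real.pi / 2 / ‖t‖)) +
          ‖t‖⁻¹ ^ 3 * ((Real.pi / 2 / ‖t‖) * (C / ‖t‖)) := by
          gcongr
      _ = (Real.pi + Real.pi / 2 * C) / ‖t‖ ^ 5 := by
          field_simp
      _ ≤ (1 + C) * Real.pi / ‖t‖ ^ 5 := by
          gcongr
          nlinarith
  · -- `p = -1`
    have hmain : ∀ η ∈ Ioi (0:ℝ), ‖BB t (t - I * η) ^ 6 * (t - I * η) ^ (-1:ℤ)‖ ≤
        ((1 + C) * (‖t‖⁻¹ ^ 5)) * (‖t‖ ^ 2 + η ^ 2)⁻¹ := by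
      intro η hη
      have h2 := u_ne ht (le_of_lt hη)
      have h3 : BB t (t - I * η) ^ 6 * (t - I * η) ^ (-1:ℤ) =
          t⁻¹ ^ 3 * ((t - I * η)⁻¹ ^ 2 * (t - I * η)⁻¹ ^ 2) *
            (-((Real.sin η ^ 6 : ℝ) : ℂ) + er t η) := by
        rw [B6_eq ht (le_of_lt hη), zpow_neg_one]
        ring
      have h4 : ‖-((Real.sin η ^ 6 : ℝ) : ℂ) + er t η‖ ≤ 1 + C := by
        refine (norm_add_le _ _).trans (add_le_add ?_ ?_)
        · rw [norm_neg]; exact hsin η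
        · exact (her η (le_of_lt hη)).trans (div_le_self hCpos ht1)
      have h5 := inv_sq_le ht (le_of_lt hη)
      have h6 : ‖(t - I * (η : ℂ))⁻¹‖ ^ 2 ≤ ‖t‖⁻¹ ^ 2 :=
        pow_le_pow_left₀ (norm_nonneg _) (inv_le ht (le_of_lt hη)) 2
      rw [h3, norm_mul, norm_mul, norm_mul, norm_pow, norm_pow, norm_inv]
      have h7 : ‖t‖⁻¹ ^ 3 * (‖(t - I * (η : ℂ))⁻¹‖ ^ 2 * ‖(t - I * (η : ℂ))⁻¹‖ ^ 2) *
          ‖-((Real.sin η ^ 6 : ℝ) : ℂ) + er t η‖ ≤
          ‖t‖⁻¹ ^ 3 * (‖t‖⁻¹ ^ 2 * (‖t‖ ^ 2 + η ^ 2)⁻¹) * (1 + C) := by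
        gcongr
      refine h7.trans (le_of_eq ?_)
      ring
    unfold Hp
    rw [norm_mul, Complex.norm_I, one_mul]
    refine (norm_integral_le_of_norm_le (hIg.const_mul ((1 + C) * (‖t‖⁻¹ ^ 5)))
      ((ae_restrict_mem measurableSet_Ioi).mono hmain)).trans ?_
    rw [integral_const_mul, hInt]
    have : (1 + C) * ‖t‖⁻¹ ^ 5 * (Real.pi / 2 / ‖t‖) = (1 + C) * (Real.pi / 2) / ‖t‖ ^ 6 := by
      field_simp
    rw [this]
    gcongr
    linarith

end Pool.Agent.Helper28.EC.I_ASY
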