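import Pool.Agent.Helper38.EC.Goals

/-!
# MP_ecc237_nt, packet IMH: imaginary parts on the positive axis
-/

set_option autoImplicit false

open MeasureTheory Filter Topology Set Complex EC237 EC237.PI

namespace Pool.Agent.Helper28.EC.I_IMH

theorem im_gb0 : (gb 0).im = 0 := by
  simp [gb]

theorem im_gb1 : (gb 1).im = Real.pi / 2 * aj 0 := by
  have h : gb 1 = I * ((Real.pi / 2 * aj 0 : ℝ) : ℂ) + ((aj 1 : ℝ) : ℂ) := by
    simp only [gb, Finset.sum_range_succ, Finset.sum_range_zero]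
    norm_num
    ring
  rw [h, add_im, ofReal_im, I_mul_im, ofReal_re, add_zero]

theorem im_gb2 : (gb 2).im = Real.pi * aj 1 := by
  have h : gb 2 = I * ((Real.pi * aj 1 : ℝ) : ℂ) +
      ((aj 2 - (Real.pi / 2) ^ 2 * aj 0 : ℝ) : ℂ) := by
    simp only [gb, Finset.sum_range_succ, Finset.sum_range_zero]
    norm_num [Nat.choose]
    ring_nf
    simp only [I_sq]
    ring
  rw [h, add_im, ofReal_im, I_mul_im, ofReal_re, add_zero]

theorem im_cb0 (A : ℕ → ℝ) : (cb A 0).im = -(Real.pi / 2) := by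
  have h : cb A 0 = I * ((-(Real.pi / 2) : ℝ) : ℂ) + ((A 0 : ℝ) : ℂ) := by
    simp only [cb, Finset.sum_range_succ, Finset.sum_range_zero]
    norm_num
    ring
  rw [h, add_im, ofReal_im, I_mul_im, ofReal_re, add_zero]

theorem im_cb1 (A : ℕ → ℝ) : (cb A 1).im = Real.pi / 2 * A 0 := by
  have h : cb A 1 = I * ((Real.pi / 2 * A 0 : ℝ) : ℂ) +
      ((A 1 + (Real.pi / 2) ^ 2 / 2 : ℝ) : ℂ) := by
    simp only [cb, Finset.sum_range_succ, Finset.sum_range_zero]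
    norm_num
    ring_nf
    simp only [I_sq]
    ring
  rw [h, add_im, ofReal_im, I_mul_im, ofReal_re, add_zero]

theorem I_cube : (I : ℂ) ^ 3 = -I := by
  rw [pow_succ, I_sq]; ring

theorem im_cb2 (A : ℕ → ℝ) : (cb A 2).im = Real.pi * A 1 + Real.pi ^ 3 / 24 := by
  have h : cb A 2 = I * ((Real.pi * A 1 + Real.pi ^ 3 / 24 : ℝ) : ℂ) +
      ((A 2 - (Real.pi / 2) ^ 2 * A 0 : ℝ) : ℂ) := by
    simp only [cb, Finset.sum_range_succ, Finset.sum_range_zero]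
    norm_num [Nat.choose]
    ring_nf
    simp only [I_sq, I_cube]
    ring
  rw [h, add_im, ofReal_im, I_mul_im, ofReal_re, add_zero]

theorem im_const (hRP : G_RP) (b : ℕ) (hb : b ≤ 6) (p : ℤ) (hp : p = 1 ∨ p = -1) (t : ℝ)
    (ht : 0 < t) (L : ℝ)
    (hL : Tendsto (fun δ : ℝ => (GV (fb b p) δ).im) (𝓝[>] 0) (𝓝 L)) :
    (GV (fb b p) t).im = L := by
  refine tendsto_nhds_unique (tendsto_const_nhds.congr' ?_) hL
  filter_upwards [Ioc_mem_nhdsGT ht] with s hs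
  have h := hRP.2.1 b hb p hp s t hs.1 hs.2
  have h2 := congrArg Complex.im h
  rw [sub_im, ofReal_im] at h2
  linarith

theorem im_GV1 (hRP : G_RP) (hG1 : G_G1) (b : ℕ) (hb : b ≤ 6) (t : ℝ) (ht : 0 < t) :
    (GV (fb b 1) t).im = (gb b).im :=
  im_const hRP b hb 1 (Or.inl rfl) t ht _
    ((Complex.continuous_im.tendsto _).comp (hG1 b hb))

theorem im_GV2 (hRP : G_RP) (hC0 : G_C0) (A : ℕ → ℝ) (hA : ∀ j : ℕ, j ≤ 6 → IsA j (A j))
    (b : ℕ) (hb : b ≤ 6) (t : ℝ) (ht : 0 < t) :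
    (GV (fb b (-1)) t).im = -(cb A b).im := by
  refine im_const hRP b hb (-1) (Or.inr rfl) t ht _ ?_
  have h := (Complex.continuous_im.tendsto _).comp (hC0 A hA b hb)
  refine (h.congr ?_).trans_eq ?_
  · intro δ
    simp only [Function.comp, add_im, ofReal_im, add_zero]
  · rw [neg_im]

theorem thm (hHEX : G_HEX) (hRP : G_RP) (hG1 : G_G1) (hC0 : G_C0) (hIB : G_IB) (hKB : G_KB) :
    EC237.PI.G_IMH := by
  intro A hA t ht
  have hQ : (t : ℂ) ∈ Qd := by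
    refine ⟨?_, ?_, ?_⟩
    · rw [ofReal_re]; exact ht.le
    · rw [ofReal_im]
    · exact_mod_cast ht.ne'
  have hI := hIB.1 t
  have hK := hKB t ht
  have hreal : ∀ b : ℕ, 3 ≤ b → b ≤ 6 → ∀ p : ℤ, (p = 1 ∨ p = -1) → (GV (fb b p) t).im = 0 := by
    intro b hb3 hb6 p hp
    rw [(hRP.2.2.1 b hb3 hb6 p hp t ht).2, ofReal_im]
  have hexp : ∀ p : ℤ, (p = 1 ∨ p = -1) → (Hp p t).im =
      15 * (Ib t ^ 2 * Kb t ^ 4) * (GV (fb 2 p) t).im - 6 * (Ib t * Kb t ^ 5) *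
        (GV (fb 1 p) t).im + Kb t ^ 6 * (GV (fb 0 p) t).im := by
    intro p hp
    have h6 := hreal 6 (by norm_num) le_rfl p hp
    have h5 := hreal 5 (by norm_num) (by norm_num) p hp
    have h4 := hreal 4 (by norm_num) (by norm_num) p hp
    have h3 := hreal 3 le_rfl (by norm_num) p hp
    have key : Hp p t = ((Ib t ^ 6 : ℝ) : ℂ) * GV (fb 6 p) t +
        ((-6 * Ib t ^ 5 * Kb t : ℝ) : ℂ) * GV (fb 5 p) t +
        ((15 * Ib t ^ 4 * Kb t ^ 2 : ℝ) : ℂ) * GV (fb 4 p) t +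
        ((-20 * Ib t ^ 3 * Kb t ^ 3 : ℝ) : ℂ) * GV (fb 3 p) t +
        ((15 * (Ib t ^ 2 * Kb t ^ 4) : ℝ) : ℂ) * GV (fb 2 p) t +
        ((-6 * (Ib t * Kb t ^ 5) : ℝ) : ℂ) * GV (fb 1 p) t +
        ((Kb t ^ 6 : ℝ) : ℂ) * GV (fb 0 p) t := by
      rw [hHEX p hp t hQ, hI, hK]
      simp only [Finset.sum_range_succ, Finset.sum_range_zero]
      norm_num [Nat.choose]
      ring
    rw [key]
    simp only [add_im, im_ofReal_mul, h6, h5, h4, h3]
    ring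
  constructor
  · rw [hexp 1 (Or.inl rfl), im_GV1 hRP hG1 2 (by norm_num) t ht,
      im_GV1 hRP hG1 1 (by norm_num) t ht, im_GV1 hRP hG1 0 (by norm_num) t ht, im_gb0, im_gb1,
      im_gb2]
    ring
  · rw [hexp (-1) (Or.inr rfl), im_GV2 hRP hC0 A hA 2 (by norm_num) t ht,
      im_GV2 hRP hC0 A hA 1 (by norm_num) t ht, im_GV2 hRP hC0 A hA 0 (by norm_num) t ht, im_cb0,
      im_cb1, im_cb2]
    ring

end Pool.Agent.Helper28.EC.I_IMH
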